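import Pool.Agent.K4H13.Acc.Bridge

/-!
# Accessible graphs have no induced cycle of length at least six

`J_G` is the binomial edge ideal of a finite simple graph `G`.  The theorem: if `J_G` is unmixed, that
is, if `c_G(T) - |T| = c_G(∅)` for every cut set `T` of `G`, then `G` has no induced cycle of length
`m ≥ 6`.  In particular no accessible graph has an induced cycle of length `m ≥ 6` (and, a graph with a
Cohen-Macaulay binomial edge ideal being accessible, no such graph has one either).  This answers the
question of the problem in the negative, and shows that only the unmixedness is needed.  The bound is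
sharp: there are accessible graphs with an induced cycle of length five.

The proof, in `Pool.Agent.K4H13.Acc`.  Let `G` be unmixed.

* For *every* set `T` of vertices `c(T) ≤ |T| + c(∅)`, with equality if and only if `T` is a cut set
  (remove a vertex that does not separate, and use induction).  So a vertex of a set `T` with equality is
  joined to two components of `G - T`.
* Uncrossing (`unc`): let `S`, `T` be cut sets, `D` a component of `G - S` and `E` one of `G - T`, with
  `T ∖ S ⊆ D` and `S ∖ T ⊆ E`, and suppose that `D ∩ E` is not empty.  Then `S ∪ T` and `S ∩ T` are cut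
  sets and `D ∩ E` is a component of `G - (S ∪ T)`: the components of `G - S` other than `D`, and those
  of `G - T` other than `E`, are components of `G - (S ∪ T)`, so that
  `c(S ∪ T) + c(S ∩ T) ≥ c(S) + c(T) - 1 + n`, `n` the number of the components in `D ∩ E`.
* A Helly property (`helly`): if `T` is a cut set and each two of `x, y, z ∈ T` are joined to a common
  component of `G - T`, then there is a component joined to all of the three.  (For a nonempty set `S` of
  components at most `|S| - 1` vertices of `T` have all their components in `S`, with equality if `S` is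
  the set of the components of a vertex of `T`; count the vertices for the unions of the sets of `x, y, z`.)
* Let `v₀ v₁ … v_{m-1}` be an induced cycle.  Let `D₃` be the component of `v₁` in `G - N(v₃)`.  Choose
  disjoint connected subsets `Q₁ ∋ v₁` and `Q₅ ⊇ {v₅, …, v_{m-1}}` of `D₃` with no edge between them, `v₄`
  not joined to `Q₁` and `v₂` not joined to `Q₅`, with `|Q₁| + |Q₅|` as large as possible.  Then the
  vertices of `N(Q₅)` outside `N(Q₁) ∪ N(D₃)` are neighbours of `v₂`, and those of `N(Q₁)` outside
  `N(Q₅) ∪ N(D₃)` are neighbours of `v₄`; all of the sets `N(Q₁), N(Q₅), N(D₃)` are cut sets.  If a cut set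
  `Z ⊆ N(Q₅)` contains all of `N(Q₅) ∖ (N(Q₁) ∪ N(D₃))` and not `v₀`, then uncrossing gives that
  `N(Q₁) ∪ N(D₃) ∪ Z` is a cut set with `Q₅` as the only component that is joined to `v₀` and `v₄` and
  lies on the proper side, and the Helly property for `v₀, v₂, v₄` gives that `v₂` is joined to `Q₅`, a
  contradiction (`Cfg.claim`).  Uncrossing with the neighbours of the components of `v₄` in `G - N(v₂)`
  and of `v₂` in `G - N(v₄)` gives such a set `Z`.
-/

set_option autoImplicit false

namespace Pool.Agent.Results.MP_12e671_al.NoLongInducedCycles

variable {V : Type}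

/-- `c_G(T)`: the number of the connected components of `G ∖ T`. -/
noncomputable def numComponents (G : SimpleGraph V) (T : Set V) : ℕ :=
  Nat.card (G.induce Tᶜ).ConnectedComponent

/-- `T` is a cut set of `G`: `c_G(T ∖ {i}) < c_G(T)` for every `i ∈ T`. -/
def IsCutSet (G : SimpleGraph V) (T : Set V) : Prop :=
  ∀ i ∈ T, numComponents G (T \ {i}) < numComponents G T

/-- `J_G` is unmixed: `c_G(T) - |T| = c_G(∅)` for every cut set `T`. -/
def IsUnmixed (G : SimpleGraph V) : Prop :=
  ∀ T : Set V, IsCutSet G T → (numComponents G T : ℤ) - (T.ncard : ℤ) = numComponents G ∅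

/-- `G` is accessible: `J_G` is unmixed, and every nonempty cut set `T` contains a vertex `t` such that
`T ∖ {t}` is a cut set. -/
def IsAccessible (G : SimpleGraph V) : Prop :=
  IsUnmixed G ∧ ∀ T : Set V, IsCutSet G T → T.Nonempty → ∃ t ∈ T, IsCutSet G (T \ {t})

/-- `G` has an induced cycle of length `m`: `m` vertices whose induced subgraph is a cycle. -/
def HasInducedCycle (G : SimpleGraph V) (m : ℕ) : Prop :=
  ∃ S : Set V, Nonempty (SimpleGraph.cycleGraph m ≃g G.induce S)

/-- **A graph whose binomial edge ideal is unmixed, in particular an accessible graph, has no induced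
cycle of length at least six.** -/
theorem result (V : Type) [Finite V] (G : SimpleGraph V) (m : ℕ) (hm : 6 ≤ m) :
    (IsUnmixed G → ¬ HasInducedCycle G m) ∧ (IsAccessible G → ¬ HasInducedCycle G m) := by
  have main : IsUnmixed G → ¬ HasInducedCycle G m := by
    rintro hU ⟨S, ⟨e⟩⟩
    have hc : ∀ T : Set V, numComponents G T = Pool.Agent.K4H13.Acc.c G T := fun T =>
      Pool.Agent.K4H13.Acc.card_eq_c T
    have hUm : Pool.Agent.K4H13.Acc.Um G := by
      intro T hT
      have h1 : IsCutSet G T := fun i hi => by
        rw [hc, hc]
        exact hT i hi
      have h2 := hU T h1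
      rw [hc, hc] at h2
      unfold Pool.Agent.K4H13.Acc.Good
      omega
    refine Pool.Agent.K4H13.Acc.no_induced_cycle hUm hm (fun i => (e i).1)
      (fun i j h => e.injective (Subtype.ext h)) fun i j => ?_
    exact e.map_adj_iff
  exact ⟨main, fun h => main h.1⟩

end Pool.Agent.Results.MP_12e671_al.NoLongInducedCycles
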